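import Pool.Agent.Helper37.RQ.Defs

/-! The tail profile. -/

namespace Pool.Agent.Helper37.RQ

open MeasureTheory Set Filter Topology

theorem eta0_pos (t : ℝ) : 0 < eta0 t := by
  unfold eta0
  have : (0 : ℝ) ≤ |t| := abs_nonneg t
  positivity

theorem eta0_continuous : Continuous eta0 := by
  unfold eta0
  apply Continuous.rpow_const
  · fun_prop
  · intro t
    left
    have : (0 : ℝ) ≤ |t| := abs_nonneg t
    positivity

theorem eta0_integrable : Integrable eta0 := by
  have h := integrable_one_add_norm (E := ℝ) (μ := volume) (r := 9 / 8) (by norm_num)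
  have h2 : eta0 = fun x : ℝ => (1 + ‖x‖) ^ (-(9 / 8 : ℝ)) := by
    ext t
    simp [eta0, Real.norm_eq_abs]
  rw [h2]
  exact h

theorem etaI_pos : 0 < etaI := by
  unfold etaI
  rw [integral_pos_iff_support_of_nonneg (fun t => (eta0_pos t).le) eta0_integrable]
  have : Function.support eta0 = univ := by
    ext t
    simp [(eta0_pos t).ne']
  rw [this]
  simp

theorem eta_pos (t : ℝ) : 0 < eta t := div_pos (eta0_pos t) etaI_pos

theorem eta_continuous : Continuous eta := eta0_continuous.div_const _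

theorem eta_integrable : Integrable eta := eta0_integrable.div_const _

theorem eta_integral : ∫ t, eta t = 1 := by
  unfold eta
  rw [integral_div]
  exact div_self etaI_pos.ne'

/-- `eta` is decreasing in `|t|` -/
theorem eta_anti {s t : ℝ} (h : |s| ≤ |t|) : eta t ≤ eta s := by
  unfold eta eta0
  apply div_le_div_of_nonneg_right _ etaI_pos.le
  apply Real.rpow_le_rpow_of_nonpos
  · have : (0 : ℝ) ≤ |s| := abs_nonneg s
    positivity
  · linarith
  · norm_num

theorem HH_nonneg (t : ℝ) : 0 ≤ HH t := by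
  unfold HH
  exact integral_nonneg fun s => (eta_pos s).le

theorem HH_le_one (t : ℝ) : HH t ≤ 1 := by
  unfold HH
  rw [← eta_integral]
  exact setIntegral_le_integral eta_integrable (Eventually.of_forall fun s => (eta_pos s).le)

theorem HH_sub (s t : ℝ) : HH t - HH s = ∫ x in s..t, eta x :=
  intervalIntegral.integral_Iic_sub_Iic eta_integrable.integrableOn eta_integrable.integrableOn

theorem HH_mono : Monotone HH := by
  intro s t hst
  have h := HH_sub s t
  have h2 : 0 ≤ ∫ x in s..t, eta x := intervalIntegral.integral_nonneg hst fun x _ => (eta_pos x).le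
  linarith

theorem HH_continuous : Continuous HH := by
  have h : HH = fun t => HH 0 + ∫ x in (0 : ℝ)..t, eta x := by
    ext t
    rw [← HH_sub 0 t]
    ring
  rw [h]
  exact continuous_const.add (intervalIntegral.continuous_primitive (fun a b => eta_continuous.intervalIntegrable a b) 0)

/-- lower bound of the profile on a linear scale -/
theorem eta_lower {C : ℝ} (hC : 1 ≤ C) :
    ∃ c > 0, ∀ r : ℝ, 1 ≤ r → c * r ^ (-(1 / 8) : ℝ) ≤ r * eta (C * r) := by
  refine ⟨(2 * C) ^ (-(9 / 8) : ℝ) / etaI, div_pos (by positivity) etaI_pos, ?_⟩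
  intro r hr
  have hr0 : 0 < r := by linarith
  have h1 : (2 * C * r) ^ (-(9 / 8) : ℝ) ≤ (1 + |C * r|) ^ (-(9 / 8) : ℝ) := by
    apply Real.rpow_le_rpow_of_nonpos
    · positivity
    · rw [abs_of_nonneg (by positivity)]
      nlinarith
    · norm_num
  have h2 : (2 * C * r) ^ (-(9 / 8) : ℝ) = (2 * C) ^ (-(9 / 8) : ℝ) * r ^ (-(9 / 8) : ℝ) :=
    Real.mul_rpow (by positivity) hr0.le
  have h3 : r * r ^ (-(9 / 8) : ℝ) = r ^ (-(1 / 8) : ℝ) := by
    nth_rewrite 1 [← Real.rpow_one r]
    rw [← Real.rpow_add hr0]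
    norm_num
  unfold eta eta0
  calc (2 * C) ^ (-(9 / 8) : ℝ) / etaI * r ^ (-(1 / 8) : ℝ)
      = r * ((2 * C * r) ^ (-(9 / 8) : ℝ) / etaI) := by rw [h2, ← h3]; ring
    _ ≤ r * ((1 + |C * r|) ^ (-(9 / 8) : ℝ) / etaI) := by
        apply mul_le_mul_of_nonneg_left _ hr0.le
        exact div_le_div_of_nonneg_right h1 etaI_pos.le

end Pool.Agent.Helper37.RQ
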