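import Pool.Agent.Helper37.RQ.A1

/-! Integration by parts and the main term. -/

namespace Pool.Agent.Helper37.RQ

open MeasureTheory Set Filter Topology

section
variable {L : ℝ} {p q : ℝ → ℝ}

theorem Dens.q_zero_off (D : Dens L p q) : ∀ s, s ∉ Icc (-L) L → q s = 0 := by
  intro s hs
  apply D.q_supp
  by_contra h
  rw [not_lt] at h
  exact hs (abs_le.1 h)

theorem Dens.p_zero_off (D : Dens L p q) : ∀ s, s ∉ Icc (-L) L → p s = 0 := by
  intro s hs
  apply D.p_supp
  by_contra h
  rw [not_lt] at h
  exact hs (abs_le.1 h)

theorem Dens.integrable_q (D : Dens L p q) : Integrable q := by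
  have h1 : IntegrableOn q (Icc (-L) L) := by
    have h2 : MemLp q 2 (volume.restrict (Icc (-L) L)) := D.q_sq.restrict _
    exact h2.integrable (by norm_num)
  rw [← integrableOn_iff_integrable_of_support_subset (s := Icc (-L) L)]
  · exact h1
  · intro s hs
    by_contra h
    exact hs (D.q_zero_off s h)

theorem Dens.integral_q (D : Dens L p q) : ∫ s, q s = 0 := by
  have h1 : p (L + 1) = 0 := D.p_supp _ (by
    have := D.Lpos
    rw [abs_of_pos (by linarith)]
    linarith)
  rw [D.p_def] at h1
  rw [← h1]
  symm
  apply setIntegral_eq_integral_of_forall_compl_eq_zero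
  intro x hx
  apply D.q_zero_off
  intro h
  apply hx
  rw [mem_Iic]
  linarith [h.2]

theorem Dens.continuous_p (D : Dens L p q) : Continuous p := by
  have h : p = fun t => p 0 + ∫ x in (0 : ℝ)..t, q x := by
    ext t
    rw [← intervalIntegral.integral_Iic_sub_Iic D.integrable_q.integrableOn D.integrable_q.integrableOn,
      ← D.p_def, ← D.p_def]
    ring
  rw [h]
  exact continuous_const.add (intervalIntegral.continuous_primitive
    (fun a b => D.integrable_q.intervalIntegrable) 0)

theorem Dens.integrable_p (D : Dens L p q) : Integrable p := by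
  rw [← integrableOn_iff_integrable_of_support_subset (s := Icc (-L) L)]
  · exact D.continuous_p.continuousOn.integrableOn_Icc
  · intro s hs
    by_contra h
    exact hs (D.p_zero_off s h)

theorem parts (D : Dens L p q) {G A : ℝ → ℝ} {C : ℝ} (hG : Measurable G)
    (hGb : ∀ t, |G t| ≤ C) (hA : ∀ s t, A t - A s = ∫ x in s..t, G x) {r : ℝ} (hr : 0 < r) (u : ℝ) :
    ∫ s, G (u + r * s) * p s = - (1 / r) * ∫ s, A (u + r * s) * q s := by
  have hC : 0 ≤ C := (abs_nonneg _).trans (hGb 0)
  have hL := D.Lpos
  have hGi : ∀ a b, IntervalIntegrable G volume a b := by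
    intro a b
    refine (intervalIntegrable_const (c := C)).mono_fun hG.aestronglyMeasurable ?_
    refine Eventually.of_forall fun x => ?_
    simp only [Real.norm_eq_abs]
    rw [abs_of_nonneg hC]
    exact hGb x
  have hAc : Continuous A := by
    have h : A = fun t => A 0 + ∫ x in (0 : ℝ)..t, G x := by
      ext t
      rw [← hA 0 t]
      ring
    rw [h]
    exact continuous_const.add (intervalIntegral.continuous_primitive hGi 0)
  -- the left side as a double integral
  have h1 : ∫ s, G (u + r * s) * p s = ∫ s in Icc (-L) L, G (u + r * s) * p s := by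
    symm
    apply setIntegral_eq_integral_of_forall_compl_eq_zero
    intro x hx
    rw [D.p_zero_off x hx, mul_zero]
  have h2 : ∫ s in Icc (-L) L, G (u + r * s) * p s
      = ∫ s in Icc (-L) L, ∫ t, G (u + r * s) * (if t ≤ s then q t else 0) := by
    congr 1
    ext s
    rw [integral_const_mul, D.p_def s, ← integral_indicator measurableSet_Iic]
    rfl
  have hint : Integrable (Function.uncurry fun (s t : ℝ) => G (u + r * s) * (if t ≤ s then q t else 0))
      ((volume.restrict (Icc (-L) L)).prod volume) := by
    have hb : Integrable (fun z : ℝ × ℝ => (fun _ : ℝ => C) z.1 * (fun t => |q t|) z.2)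
        ((volume.restrict (Icc (-L) L)).prod volume) :=
      (integrable_const C).mul_prod D.integrable_q.abs
    refine hb.mono' ?_ (Eventually.of_forall ?_)
    · apply Measurable.aestronglyMeasurable
      apply Measurable.mul
      · exact hG.comp (by fun_prop)
      · exact Measurable.ite (measurableSet_le measurable_snd measurable_fst)
          (D.q_meas.comp measurable_snd) measurable_const
    · rintro ⟨s, t⟩
      simp only [Function.uncurry_apply_pair, norm_mul, Real.norm_eq_abs]
      apply mul_le_mul (hGb _) _ (abs_nonneg _) hC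
      split_ifs
      · exact le_rfl
      · simp
  rw [h1, h2, integral_integral_swap hint]
  have h3 : ∀ t, ∫ s in Icc (-L) L, G (u + r * s) * (if t ≤ s then q t else 0)
      = (1 / r * A (u + r * L)) * q t - 1 / r * (A (u + r * t) * q t) := by
    intro t
    by_cases ht : t ∈ Icc (-L) L
    · have h4 : ∀ s, G (u + r * s) * (if t ≤ s then q t else 0)
          = (Ici t).indicator (fun s => G (u + r * s) * q t) s := by
        intro s
        by_cases hs : t ≤ s
        · rw [if_pos hs, indicator_of_mem (by exact hs)]
        · rw [if_neg hs, indicator_of_notMem (by exact hs), mul_zero]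
      simp_rw [h4]
      rw [setIntegral_indicator measurableSet_Ici]
      have h5 : Icc (-L) L ∩ Ici t = Icc t L := by
        ext x
        simp only [mem_inter_iff, mem_Icc, mem_Ici]
        constructor
        · rintro ⟨⟨_, h⟩, h'⟩; exact ⟨h', h⟩
        · rintro ⟨h, h'⟩; exact ⟨⟨by linarith [ht.1], h'⟩, h⟩
      rw [h5, integral_Icc_eq_integral_Ioc, ← intervalIntegral.integral_of_le ht.2,
        intervalIntegral.integral_mul_const, intervalIntegral.integral_comp_add_mul _ hr.ne',
        ← hA, smul_eq_mul]
      field_simp
    · rw [D.q_zero_off t ht]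
      simp
  simp_rw [h3]
  rw [integral_sub (D.integrable_q.const_mul _), integral_const_mul, D.integral_q, integral_const_mul]
  · ring
  · apply Integrable.const_mul
    rw [← integrableOn_iff_integrable_of_support_subset (s := Icc (-L) L)]
    · apply IntegrableOn.continuousOn_mul _ D.integrable_q.integrableOn isCompact_Icc
      exact (hAc.comp (by fun_prop)).continuousOn
    · intro s hs
      by_contra h
      apply hs
      simp only
      rw [D.q_zero_off s h, mul_zero]

theorem NN_eq (D : Dens L p q) {r : ℝ} (hr : 0 < r) (u : ℝ) :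
    NN q r u = r * ∫ s, eta (u + r * s) * p s := by
  have h := parts D (G := eta) (A := HH) (C := eta 0) eta_continuous.measurable
    (fun t => by rw [abs_of_pos (eta_pos t)]; exact eta_anti (by simp)) HH_sub hr u
  rw [h]
  unfold NN
  field_simp

theorem NN_lower (D : Dens L p q) {r : ℝ} (hr : 1 ≤ r) (u : ℝ) :
    r * (∫ s, p s) * eta (|u| + r * L) ≤ NN q r u := by
  have hr0 : 0 < r := by linarith
  rw [NN_eq D hr0 u, mul_assoc]
  apply mul_le_mul_of_nonneg_left _ hr0.le
  rw [← integral_mul_const]
  apply integral_mono (D.integrable_p.mul_const _)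
  · refine Integrable.bdd_mul (c := eta 0) D.integrable_p ?_ (Eventually.of_forall fun s => ?_)
    · exact (eta_continuous.comp (by fun_prop)).aestronglyMeasurable
    · rw [Real.norm_eq_abs, abs_of_pos (eta_pos _)]
      exact eta_anti (by simp)
  · intro s
    simp only
    by_cases hs : s ∈ Icc (-L) L
    · rw [mul_comm]
      apply mul_le_mul_of_nonneg_right _ (D.p_nonneg s)
      apply eta_anti
      rw [abs_of_nonneg (add_nonneg (abs_nonneg u) (by have := D.Lpos; positivity))]
      refine (abs_add_le _ _).trans ?_
      rw [abs_mul, abs_of_pos hr0]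
      have : |s| ≤ L := abs_le.2 hs
      have := mul_le_mul_of_nonneg_left this hr0.le
      linarith
    · rw [D.p_zero_off s hs]
      simp

theorem NN_pos (D : Dens L p q) {r : ℝ} (hr : 1 ≤ r) (u : ℝ) : 0 < NN q r u := by
  refine lt_of_lt_of_le ?_ (NN_lower D hr u)
  have := D.p_pos
  have := eta_pos (|u| + r * L)
  positivity

end

end Pool.Agent.Helper37.RQ
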