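import Pool.Agent.Helper37.RQ.A5

/-! Choice of the numbers of cells in the blocks. -/

namespace Pool.Agent.Helper37.RQ

open MeasureTheory Set Filter Topology

section
variable {L : ℝ} {p q : ℝ → ℝ}

theorem gfun_abs_le (m : ℕ) (t : ℝ) : |gfun m t| ≤ 1 := by
  unfold gfun
  have h0 := HH_nonneg t
  have h1 := HH_le_one t
  split_ifs <;> rw [abs_le] <;> constructor <;> linarith

theorem gfun_measurable (m : ℕ) : Measurable (gfun m) := by
  unfold gfun
  apply Measurable.sub _ HH_continuous.measurable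
  apply Measurable.ite _ measurable_const measurable_const
  apply measurableSet_lt
  · exact Measurable.fract (by fun_prop)
  · exact HH_continuous.measurable

theorem SS_sub_eq (n : ℤ → ℕ) (t : ℝ) :
    (SS n).indicator 1 t - HH t = gfun (n ⌊t⌋) t := by
  unfold gfun
  by_cases h : t ∈ SS n
  · rw [indicator_of_mem h, if_pos (by exact h)]
    simp
  · rw [indicator_of_notMem h, if_neg (by exact h)]

theorem near_int (D : Dens L p q) {y : ℝ} (hy : 1 ≤ y) (u : ℝ) :
    ∫ s in Icc ((-y ^ 4 - u) / y ^ 8) ((y ^ 4 - u) / y ^ 8), |q s|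
      ≤ (1 + (∫ s, q s ^ 2) / 2) / y ^ 2 := by
  have hy0 : 0 < y := by linarith
  have hq2 : Integrable (fun s => q s ^ 2) := D.q_sq.integrable_sq
  set A := Icc ((-y ^ 4 - u) / y ^ 8) ((y ^ 4 - u) / y ^ 8) with hA
  have hvol : volume.real A = 2 / y ^ 4 := by
    rw [hA, Real.volume_real_Icc_of_le]
    · field_simp
      ring
    · apply div_le_div_of_nonneg_right _ (by positivity)
      have : 0 < y ^ 4 := by positivity
      linarith
  have h1 : ∫ s in A, |q s| ≤ ∫ s in A, (y ^ 2 / 2 + (1 / (2 * y ^ 2)) * q s ^ 2) := by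
    apply setIntegral_mono D.integrable_q.abs.integrableOn
    · apply Integrable.add
      · rw [hA]
        exact integrableOn_const (by simp)
      · exact (hq2.const_mul _).integrableOn
    · intro s
      simp only
      have h2 : y ^ 2 / 2 + (1 / (2 * y ^ 2)) * q s ^ 2 - |q s| = (y ^ 2 - |q s|) ^ 2 / (2 * y ^ 2) := by
        rw [← sq_abs (q s)]
        field_simp
        ring
      have h3 : 0 ≤ (y ^ 2 - |q s|) ^ 2 / (2 * y ^ 2) := by positivity
      linarith
  have h4 : ∫ s in A, (y ^ 2 / 2 + (1 / (2 * y ^ 2)) * q s ^ 2)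
      = 2 / y ^ 4 * (y ^ 2 / 2) + (1 / (2 * y ^ 2)) * ∫ s in A, q s ^ 2 := by
    rw [integral_add, setIntegral_const, hvol, integral_const_mul, smul_eq_mul]
    · rw [hA]
      exact integrableOn_const (by simp)
    · exact (hq2.const_mul _).integrableOn
  have h5 : ∫ s in A, q s ^ 2 ≤ ∫ s, q s ^ 2 :=
    setIntegral_le_integral hq2 (Eventually.of_forall fun s => sq_nonneg _)
  calc ∫ s in A, |q s| ≤ 2 / y ^ 4 * (y ^ 2 / 2) + (1 / (2 * y ^ 2)) * ∫ s in A, q s ^ 2 := by
        rw [← h4]; exact h1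
    _ ≤ 2 / y ^ 4 * (y ^ 2 / 2) + (1 / (2 * y ^ 2)) * ∫ s, q s ^ 2 := by
        have : 0 ≤ 1 / (2 * y ^ 2) := by positivity
        have := mul_le_mul_of_nonneg_left h5 this
        linarith
    _ = (1 + (∫ s, q s ^ 2) / 2) / y ^ 2 := by
        field_simp

theorem exists_blocks_of (D : Dens L p q)
    (hsb : ∀ ε : ℝ, 0 < ε → ∃ m : ℕ, ∀ j : ℤ, ∀ r : ℝ, 1 ≤ r → ∀ u : ℝ, |EE q m j r u| ≤ ε) :
    ∃ n : ℤ → ℕ, ∀ r : ℝ, 1 ≤ r → ∀ u : ℝ,
      |∫ s, ((SS n).indicator 1 (u + r * s) - HH (u + r * s)) * q s| < NN q r u := by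
  have hL := D.Lpos
  have hP := D.p_pos
  set P := ∫ s, p s with hPdef
  obtain ⟨c, hc, hlow⟩ := eta_lower (C := 1 + 2 * L) (by linarith)
  set K' := 1 + (∫ s, q s ^ 2) / 2 with hK'
  have hK'pos : 0 < K' := by
    have : 0 ≤ ∫ s, q s ^ 2 := integral_nonneg fun s => sq_nonneg _
    positivity
  set K := 2 * K' / (P * c) with hK
  have hKpos : 0 < K := by positivity
  set R := 1 + K ^ 8 with hR
  have hR1 : 1 ≤ R := by
    have : 0 < K ^ 8 := by positivity
    linarith
  obtain ⟨w, hw, W, hW, hW4⟩ := posSumOfEncodable (ε := 1 / 4) (by norm_num) ℤ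
  set Mj : ℤ → ℝ := fun j => |(j : ℝ)| + 1 + 2 * L * (R * (1 + |(j : ℝ)|) ^ 2) with hMj
  have hMpos : ∀ j, 0 ≤ Mj j := by
    intro j
    rw [hMj]
    positivity
  choose n hn using fun j : ℤ => hsb (w j * (P * eta (Mj j)))
    (mul_pos (hw j) (mul_pos hP (eta_pos _)))
  refine ⟨n, ?_⟩
  intro r hr u
  have hr0 : 0 < r := by linarith
  have hNpos := NN_pos D hr u
  obtain ⟨y, hy, hry⟩ : ∃ y : ℝ, 1 ≤ y ∧ r = y ^ 8 := by
    refine ⟨r ^ ((1 : ℝ) / 8), Real.one_le_rpow hr (by norm_num), ?_⟩
    rw [← Real.rpow_natCast, ← Real.rpow_mul hr0.le]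
    norm_num
  have hy0 : 0 < y := by linarith
  -- near and far
  set J : Finset ℤ := (Finset.Icc ⌊u - r * L⌋ ⌊u + r * L⌋).filter
    (fun j : ℤ => r ≤ R * (1 + |(j : ℝ)|) ^ 2) with hJ
  set nearS : Set ℝ := {s | R * (1 + |((⌊u + r * s⌋ : ℤ) : ℝ)|) ^ 2 < r ∧ s ∈ Icc (-L) L} with hnear
  have hnearm : MeasurableSet nearS := by
    have h1 : Measurable (fun s : ℝ => ⌊u + r * s⌋) :=
      Int.measurable_floor.comp (by fun_prop)
    have h2 : Measurable (fun s : ℝ => R * (1 + |((⌊u + r * s⌋ : ℤ) : ℝ)|) ^ 2) :=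
      (measurable_from_top (f := fun k : ℤ => R * (1 + |(k : ℝ)|) ^ 2)).comp h1
    have h3 : MeasurableSet {s : ℝ | R * (1 + |((⌊u + r * s⌋ : ℤ) : ℝ)|) ^ 2 < r} :=
      measurableSet_lt h2 measurable_const
    exact h3.inter measurableSet_Icc
  have hpt : ∀ s, ((SS n).indicator 1 (u + r * s) - HH (u + r * s)) * q s
      = nearS.indicator (fun s => gfun (n ⌊u + r * s⌋) (u + r * s) * q s) s
        + ∑ j ∈ J, (Ico (j : ℝ) (j + 1)).indicator (gfun (n j)) (u + r * s) * q s := by
    intro s
    rw [SS_sub_eq]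
    by_cases hs : s ∈ Icc (-L) L
    · have hfl : (⌊u + r * s⌋ : ℤ) ∈ Finset.Icc ⌊u - r * L⌋ ⌊u + r * L⌋ := by
        rw [Finset.mem_Icc]
        constructor
        · apply Int.floor_le_floor
          nlinarith [hs.1]
        · apply Int.floor_le_floor
          nlinarith [hs.2]
      have hmem : u + r * s ∈ Ico ((⌊u + r * s⌋ : ℤ) : ℝ) ((⌊u + r * s⌋ : ℤ) + 1) :=
        ⟨Int.floor_le _, Int.lt_floor_add_one _⟩
      have hoff : ∀ j : ℤ, j ≠ ⌊u + r * s⌋ →
          (Ico (j : ℝ) (j + 1)).indicator (gfun (n j)) (u + r * s) * q s = 0 := by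
        intro j hj
        rw [indicator_of_notMem, zero_mul]
        intro hm
        apply hj
        exact (Int.floor_eq_iff.2 ⟨hm.1, hm.2⟩).symm
      by_cases hN : R * (1 + |((⌊u + r * s⌋ : ℤ) : ℝ)|) ^ 2 < r
      · rw [indicator_of_mem (show s ∈ nearS from ⟨hN, hs⟩)]
        rw [Finset.sum_eq_zero, add_zero]
        intro j hj
        apply hoff
        intro hj2
        rw [hJ, Finset.mem_filter] at hj
        rw [hj2] at hj
        linarith [hj.2]
      · rw [indicator_of_notMem (fun h => hN h.1), zero_add]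
        rw [Finset.sum_eq_single ⌊u + r * s⌋]
        · rw [indicator_of_mem hmem]
        · intro j _ hj
          exact hoff j hj
        · intro hj
          exfalso
          apply hj
          rw [hJ, Finset.mem_filter]
          exact ⟨hfl, not_lt.1 hN⟩
    · rw [D.q_zero_off s hs]
      simp only [mul_zero, Finset.sum_const_zero, add_zero]
      symm
      apply indicator_of_notMem
      exact fun h => hs h.2
  have hgn : Measurable (fun t : ℝ => (SS n).indicator (1 : ℝ → ℝ) t - HH t) :=
    (measurable_one.indicator (measurableSet_SS n)).sub HH_continuous.measurable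
  have hi1 : Integrable (nearS.indicator (fun s => gfun (n ⌊u + r * s⌋) (u + r * s) * q s)) := by
    apply Integrable.indicator _ hnearm
    have : (fun s => gfun (n ⌊u + r * s⌋) (u + r * s) * q s)
        = fun s => ((SS n).indicator (1 : ℝ → ℝ) (u + r * s) - HH (u + r * s)) * q s := by
      ext s
      rw [SS_sub_eq]
    rw [this]
    refine Integrable.bdd_mul (c := 1) D.integrable_q ?_ (Eventually.of_forall fun s => ?_)
    · exact (hgn.comp (by fun_prop : Measurable fun s : ℝ => u + r * s)).aestronglyMeasurable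
    · rw [SS_sub_eq]
      exact gfun_abs_le _ _
  have hi2 : ∀ j ∈ J, Integrable (fun s => (Ico (j : ℝ) (j + 1)).indicator (gfun (n j)) (u + r * s) * q s) := by
    intro j _
    refine Integrable.bdd_mul (c := 1) D.integrable_q ?_ (Eventually.of_forall fun s => ?_)
    · exact (((gfun_measurable _).indicator measurableSet_Ico).comp
        (by fun_prop : Measurable fun s : ℝ => u + r * s)).aestronglyMeasurable
    · by_cases h : u + r * s ∈ Ico (j : ℝ) (j + 1)
      · rw [indicator_of_mem h]
        exact gfun_abs_le _ _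
      · rw [indicator_of_notMem h]
        simp
  simp_rw [hpt]
  rw [integral_add hi1 (integrable_finsetSum _ hi2), integral_finsetSum _ hi2,
    integral_indicator hnearm]
  -- the far blocks
  have hfar : |∑ j ∈ J, ∫ s, (Ico (j : ℝ) (j + 1)).indicator (gfun (n j)) (u + r * s) * q s|
      ≤ 1 / 4 * NN q r u := by
    have h1 : ∀ j ∈ J, |∫ s, (Ico (j : ℝ) (j + 1)).indicator (gfun (n j)) (u + r * s) * q s|
        ≤ w j * NN q r u := by
      intro j hj
      rw [hJ, Finset.mem_filter, Finset.mem_Icc] at hj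
      obtain ⟨⟨hj1, hj2⟩, hj3⟩ := hj
      refine (hn j j r hr u).trans ?_
      apply mul_le_mul_of_nonneg_left _ (hw j).le
      refine le_trans ?_ (NN_lower D hr u)
      have hu : |u| ≤ |(j : ℝ)| + 1 + r * L := by
        have h2 : (j : ℝ) ≤ u + r * L := (Int.le_floor.1 hj2)
        have h3 : u - r * L < j + 1 := by
          have := Int.lt_floor_add_one (u - r * L)
          have h4 : ((⌊u - r * L⌋ : ℤ) : ℝ) ≤ j := by exact_mod_cast hj1
          linarith
        rw [abs_le]
        constructor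
        · linarith [neg_abs_le (j : ℝ)]
        · linarith [le_abs_self (j : ℝ)]
      have h5 : |u| + r * L ≤ Mj j := by
        rw [hMj]
        simp only
        have := mul_le_mul_of_nonneg_left hj3 hL.le
        nlinarith
      have h6 : eta (Mj j) ≤ eta (|u| + r * L) := by
        apply eta_anti
        rw [abs_of_nonneg (by positivity), abs_of_nonneg (hMpos j)]
        exact h5
      have h7 : 0 < eta (Mj j) := eta_pos _
      have h8 : P * eta (Mj j) ≤ P * eta (|u| + r * L) := mul_le_mul_of_nonneg_left h6 hP.le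
      have h9 : 0 < P * eta (|u| + r * L) := mul_pos hP (eta_pos _)
      rw [mul_assoc]
      nlinarith
    calc |∑ j ∈ J, ∫ s, (Ico (j : ℝ) (j + 1)).indicator (gfun (n j)) (u + r * s) * q s|
        ≤ ∑ j ∈ J, |∫ s, (Ico (j : ℝ) (j + 1)).indicator (gfun (n j)) (u + r * s) * q s| :=
          Finset.abs_sum_le_sum_abs _ _
      _ ≤ ∑ j ∈ J, w j * NN q r u := Finset.sum_le_sum h1
      _ = (∑ j ∈ J, w j) * NN q r u := by rw [Finset.sum_mul]
      _ ≤ 1 / 4 * NN q r u := by
          apply mul_le_mul_of_nonneg_right _ hNpos.le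
          exact (sum_le_hasSum J (fun j _ => (hw j).le) hW).trans hW4
  -- the near blocks
  have hnearb : |∫ s in nearS, gfun (n ⌊u + r * s⌋) (u + r * s) * q s| ≤ 1 / 2 * NN q r u := by
    by_cases hne : nearS.Nonempty
    · obtain ⟨s0, hs0, hs0L⟩ := hne
      have hKy : K < y := by
        have h1 : R ≤ R * (1 + |((⌊u + r * s0⌋ : ℤ) : ℝ)|) ^ 2 := by
          have : (1 : ℝ) ≤ (1 + |((⌊u + r * s0⌋ : ℤ) : ℝ)|) ^ 2 := by
            have := abs_nonneg ((⌊u + r * s0⌋ : ℤ) : ℝ)
            nlinarith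
          nlinarith
        have h2 : K ^ 8 < y ^ 8 := by
          rw [← hry]
          linarith
        exact lt_of_pow_lt_pow_left₀ 8 hy0.le h2
      have hsub : ∀ s ∈ nearS, |u + r * s| ≤ y ^ 4 := by
        rintro s ⟨hs1, hs2⟩
        have h1 : (1 + |((⌊u + r * s⌋ : ℤ) : ℝ)|) ^ 2 < (y ^ 4) ^ 2 := by
          have h3 : (0 : ℝ) ≤ (1 + |((⌊u + r * s⌋ : ℤ) : ℝ)|) ^ 2 := by positivity
          have h4 : (y ^ 4) ^ 2 = r := by rw [hry]; ring
          rw [h4]
          nlinarith
        have h2 : 1 + |((⌊u + r * s⌋ : ℤ) : ℝ)| < y ^ 4 := by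
          exact lt_of_pow_lt_pow_left₀ 2 (by positivity) h1
        have h5 : |u + r * s| ≤ 1 + |((⌊u + r * s⌋ : ℤ) : ℝ)| := by
          have h6 := Int.floor_le (u + r * s)
          have h7 := Int.lt_floor_add_one (u + r * s)
          rw [abs_le]
          constructor
          · linarith [neg_abs_le ((⌊u + r * s⌋ : ℤ) : ℝ)]
          · linarith [le_abs_self ((⌊u + r * s⌋ : ℤ) : ℝ)]
        linarith
      have hu : |u| + r * L ≤ (1 + 2 * L) * r := by
        have h1 := hsub s0 ⟨hs0, hs0L⟩
        have h2 : |u| ≤ |u + r * s0| + r * L := by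
          have h3 : |r * s0| ≤ r * L := by
            rw [abs_mul, abs_of_pos hr0]
            exact mul_le_mul_of_nonneg_left (abs_le.2 hs0L) hr0.le
          have h4 : u = (u + r * s0) - r * s0 := by ring
          calc |u| = |(u + r * s0) - r * s0| := by rw [← h4]
            _ ≤ |u + r * s0| + |r * s0| := abs_sub _ _
            _ ≤ |u + r * s0| + r * L := by linarith
        have h5 : y ^ 4 ≤ r := by
          rw [hry]
          exact pow_le_pow_right₀ hy (by norm_num)
        linarith
      have hNl : P * c / y ≤ NN q r u := by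
        refine le_trans ?_ (NN_lower D hr u)
        have h1 := hlow r hr
        have h2 : r ^ (-(1 / 8) : ℝ) = 1 / y := by
          rw [hry, ← Real.rpow_natCast, ← Real.rpow_mul hy0.le]
          norm_num
          exact Real.rpow_neg_one y
        rw [h2] at h1
        have h3 : eta ((1 + 2 * L) * r) ≤ eta (|u| + r * L) := by
          apply eta_anti
          rw [abs_of_nonneg (show (0 : ℝ) ≤ |u| + r * L by positivity),
            abs_of_nonneg (show (0 : ℝ) ≤ (1 + 2 * L) * r by positivity)]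
          exact hu
        have h4 : r * eta ((1 + 2 * L) * r) ≤ r * eta (|u| + r * L) :=
          mul_le_mul_of_nonneg_left h3 hr0.le
        calc P * c / y = P * (c * (1 / y)) := by ring
          _ ≤ P * (r * eta (|u| + r * L)) := mul_le_mul_of_nonneg_left (h1.trans h4) hP.le
          _ = r * P * eta (|u| + r * L) := by ring
      have h1 : |∫ s in nearS, gfun (n ⌊u + r * s⌋) (u + r * s) * q s| ≤ ∫ s in nearS, |q s| := by
        refine (abs_integral_le_integral_abs).trans ?_
        apply integral_mono_of_nonneg (Eventually.of_forall fun s => abs_nonneg _)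
          D.integrable_q.abs.integrableOn
        refine Eventually.of_forall fun s => ?_
        simp only
        rw [abs_mul]
        calc |gfun (n ⌊u + r * s⌋) (u + r * s)| * |q s| ≤ 1 * |q s| :=
              mul_le_mul_of_nonneg_right (gfun_abs_le _ _) (abs_nonneg _)
          _ = |q s| := one_mul _
      have h2 : ∫ s in nearS, |q s|
          ≤ ∫ s in Icc ((-y ^ 4 - u) / y ^ 8) ((y ^ 4 - u) / y ^ 8), |q s| := by
        apply setIntegral_mono_set D.integrable_q.abs.integrableOn
          (Eventually.of_forall fun s => abs_nonneg _)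
        apply LE.le.eventuallyLE
        intro s hs
        have h3 := abs_le.1 (hsub s hs)
        rw [← hry]
        constructor
        · rw [div_le_iff₀ hr0]
          linarith [h3.1]
        · rw [le_div_iff₀ hr0]
          linarith [h3.2]
      have h3 := near_int D hy u
      have h4 : K' / y ^ 2 ≤ 1 / 2 * (P * c / y) := by
        have h5 : 2 * K' < y * (P * c) := by
          rw [hK, div_lt_iff₀ (by positivity)] at hKy
          exact hKy
        rw [div_le_iff₀ (by positivity)]
        have h6 : 1 / 2 * (P * c / y) * y ^ 2 = 1 / 2 * (y * (P * c)) := by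
          field_simp
        rw [h6]
        linarith
      linarith
    · rw [not_nonempty_iff_eq_empty] at hne
      rw [hne]
      simp only [Measure.restrict_empty, integral_zero_measure, abs_zero]
      positivity
  calc |(∫ s in nearS, gfun (n ⌊u + r * s⌋) (u + r * s) * q s)
        + ∑ j ∈ J, ∫ s, (Ico (j : ℝ) (j + 1)).indicator (gfun (n j)) (u + r * s) * q s|
      ≤ |∫ s in nearS, gfun (n ⌊u + r * s⌋) (u + r * s) * q s|
        + |∑ j ∈ J, ∫ s, (Ico (j : ℝ) (j + 1)).indicator (gfun (n j)) (u + r * s) * q s| :=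
        abs_add_le _ _
    _ ≤ 1 / 2 * NN q r u + 1 / 4 * NN q r u := add_le_add hnearb hfar
    _ < NN q r u := by linarith

end

end Pool.Agent.Helper37.RQ
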