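import Pool.Agent.Helper37.RQ.A3

/-! The one dimensional lemma: from the choice of blocks to strict monotonicity. -/

namespace Pool.Agent.Helper37.RQ

open MeasureTheory Set Filter Topology

theorem measurableSet_SS (n : ℤ → ℕ) : MeasurableSet (SS n) := by
  unfold SS
  apply measurableSet_lt
  · apply Measurable.fract
    apply Measurable.mul _ measurable_id
    exact (measurable_from_top (f := fun k : ℤ => ((n k : ℕ) : ℝ))).comp Int.measurable_floor
  · exact HH_continuous.measurable

/-- strict monotonicity once the oscillating part is dominated by the main term -/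
theorem one_dim_of {L : ℝ} {p q : ℝ → ℝ} (D : Dens L p q) {S : Set ℝ} (hS : MeasurableSet S)
    (h : ∀ r : ℝ, 1 ≤ r → ∀ u : ℝ,
      |∫ s, (S.indicator 1 (u + r * s) - HH (u + r * s)) * q s| < NN q r u)
    {r : ℝ} (hr : 1 ≤ r) :
    StrictMono (fun u : ℝ => ∫ s, S.indicator 1 (u + r * s) * p s) := by
  intro u u' huu
  have hr0 : 0 < r := by linarith
  have hGm : Measurable (S.indicator (1 : ℝ → ℝ)) := measurable_one.indicator hS
  have hGb : ∀ t, |S.indicator (1 : ℝ → ℝ) t| ≤ 1 := by
    intro t
    by_cases ht : t ∈ S
    · rw [indicator_of_mem ht]; simp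
    · rw [indicator_of_notMem ht]; simp
  have hGi : ∀ a b, IntervalIntegrable (S.indicator (1 : ℝ → ℝ)) volume a b := by
    intro a b
    refine (intervalIntegrable_const (c := (1 : ℝ))).mono_fun hGm.aestronglyMeasurable ?_
    refine Eventually.of_forall fun x => ?_
    simp only [Real.norm_eq_abs, abs_one]
    exact hGb x
  set A : ℝ → ℝ := fun t => ∫ x in (0 : ℝ)..t, S.indicator (1 : ℝ → ℝ) x with hAdef
  have hA : ∀ s t, A t - A s = ∫ x in s..t, S.indicator (1 : ℝ → ℝ) x := by
    intro s t
    rw [hAdef]
    exact intervalIntegral.integral_interval_sub_left (hGi _ _) (hGi _ _)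
  have hAc : Continuous A := intervalIntegral.continuous_primitive hGi 0
  have hAint : ∀ v, Integrable (fun s => A (v + r * s) * q s) := by
    intro v
    rw [← integrableOn_iff_integrable_of_support_subset (s := Icc (-L) L)]
    · apply IntegrableOn.continuousOn_mul _ D.integrable_q.integrableOn isCompact_Icc
      exact (hAc.comp (by fun_prop)).continuousOn
    · intro s hs
      by_contra h
      apply hs
      simp only
      rw [D.q_zero_off s h, mul_zero]
  have hGq : ∀ v, Integrable (fun s => S.indicator (1 : ℝ → ℝ) (v + r * s) * q s) := by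
    intro v
    refine Integrable.bdd_mul (c := 1) D.integrable_q ?_ (Eventually.of_forall fun s => ?_)
    · exact (hGm.comp (by fun_prop)).aestronglyMeasurable
    · exact hGb _
  have hHq : ∀ v, Integrable (fun s => HH (v + r * s) * q s) := by
    intro v
    refine Integrable.bdd_mul (c := 1) D.integrable_q ?_ (Eventually.of_forall fun s => ?_)
    · exact (HH_continuous.comp (by fun_prop)).aestronglyMeasurable
    · rw [Real.norm_eq_abs, abs_of_nonneg (HH_nonneg _)]
      exact HH_le_one _
  -- positivity of the derivative
  have hpos : ∀ v, 0 < - ∫ s, S.indicator (1 : ℝ → ℝ) (v + r * s) * q s := by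
    intro v
    have h1 := h r hr v
    have h2 : ∫ s, (S.indicator (1 : ℝ → ℝ) (v + r * s) - HH (v + r * s)) * q s
        = (∫ s, S.indicator (1 : ℝ → ℝ) (v + r * s) * q s) - ∫ s, HH (v + r * s) * q s := by
      rw [← integral_sub (hGq v) (hHq v)]
      congr 1
      ext s
      ring
    rw [h2] at h1
    have h3 := (abs_lt.1 h1).2
    unfold NN at h3
    linarith
  have hint : Integrable (Function.uncurry fun (v s : ℝ) => S.indicator (1 : ℝ → ℝ) (v + r * s) * q s)
      ((volume.restrict (Ioc u u')).prod volume) := by
    have hb : Integrable (fun z : ℝ × ℝ => (fun _ : ℝ => (1 : ℝ)) z.1 * (fun t => |q t|) z.2)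
        ((volume.restrict (Ioc u u')).prod volume) :=
      (integrable_const 1).mul_prod D.integrable_q.abs
    refine hb.mono' ?_ (Eventually.of_forall ?_)
    · apply Measurable.aestronglyMeasurable
      apply Measurable.mul
      · exact hGm.comp (by fun_prop)
      · exact D.q_meas.comp measurable_snd
    · rintro ⟨v, s⟩
      simp only [Function.uncurry_apply_pair, norm_mul, Real.norm_eq_abs]
      exact mul_le_mul_of_nonneg_right (hGb _) (abs_nonneg _)
  have key : (∫ s, S.indicator 1 (u' + r * s) * p s) - ∫ s, S.indicator 1 (u + r * s) * p s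
      = 1 / r * ∫ v in u..u', - ∫ s, S.indicator (1 : ℝ → ℝ) (v + r * s) * q s := by
    rw [parts D hGm hGb hA hr0 u', parts D hGm hGb hA hr0 u, intervalIntegral.integral_neg,
      intervalIntegral.integral_of_le huu.le, integral_integral_swap hint]
    have h4 : ∀ s, ∫ v in Ioc u u', S.indicator (1 : ℝ → ℝ) (v + r * s) * q s
        = A (u' + r * s) * q s - A (u + r * s) * q s := by
      intro s
      rw [← intervalIntegral.integral_of_le huu.le, intervalIntegral.integral_mul_const,
        intervalIntegral.integral_comp_add_right, ← hA]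
      ring
    simp_rw [h4]
    rw [integral_sub (hAint u') (hAint u)]
    ring
  have hi : IntervalIntegrable (fun v => - ∫ s, S.indicator (1 : ℝ → ℝ) (v + r * s) * q s) volume u u' := by
    apply IntervalIntegrable.neg
    rw [intervalIntegrable_iff_integrableOn_Ioc_of_le huu.le]
    exact hint.integral_prod_left
  have h5 : 0 < ∫ v in u..u', - ∫ s, S.indicator (1 : ℝ → ℝ) (v + r * s) * q s :=
    intervalIntegral.intervalIntegral_pos_of_pos hi hpos huu
  have h6 : 0 < 1 / r * ∫ v in u..u', - ∫ s, S.indicator (1 : ℝ → ℝ) (v + r * s) * q s := by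
    positivity
  rw [← key] at h6
  simp only
  linarith

end Pool.Agent.Helper37.RQ
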