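import Mathlib

/-!
Reconstruction of magnified copies in dimension at least three with `d + 1` test sets
(MP_b01677_an, Q1): definitions used in the proof.
-/

namespace Pool.Agent.Helper37.RQ

open MeasureTheory Set

/-- unnormalised tail profile -/
noncomputable def eta0 (t : ℝ) : ℝ := (1 + |t|) ^ (-(9 / 8) : ℝ)

/-- the normalisation -/
noncomputable def etaI : ℝ := ∫ t, eta0 t

/-- the tail profile: an even probability density, decreasing in `|t|` -/
noncomputable def eta (t : ℝ) : ℝ := eta0 t / etaI

/-- the limiting density of the one dimensional test set, increasing from `0` to `1` -/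
noncomputable def HH (t : ℝ) : ℝ := ∫ s in Iic t, eta s

/-- the oscillating function with `m` cells per unit length: indicator of
`{fract (m t) < HH t}` minus its density -/
noncomputable def gfun (m : ℕ) (t : ℝ) : ℝ := (if Int.fract ((m : ℝ) * t) < HH t then 1 else 0) - HH t

/-- the test set with `n j` cells per unit length in `[j, j+1)` -/
def SS (n : ℤ → ℕ) : Set ℝ := {t | Int.fract (((n ⌊t⌋ : ℕ) : ℝ) * t) < HH t}

/-- one dimensional data: `p` is a probability-like density supported in `[-L, L]`, with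
square integrable derivative `q` -/
structure Dens (L : ℝ) (p q : ℝ → ℝ) : Prop where
  Lpos : 0 < L
  q_meas : Measurable q
  q_sq : MemLp q 2 volume
  q_supp : ∀ s, L < |s| → q s = 0
  p_def : ∀ s, p s = ∫ t in Iic s, q t
  p_nonneg : ∀ s, 0 ≤ p s
  p_supp : ∀ s, L < |s| → p s = 0
  p_pos : 0 < ∫ s, p s

/-- the main term -/
noncomputable def NN (q : ℝ → ℝ) (r u : ℝ) : ℝ := - ∫ s, HH (u + r * s) * q s

/-- error of one block -/
noncomputable def EE (q : ℝ → ℝ) (m : ℕ) (j : ℤ) (r u : ℝ) : ℝ :=
  ∫ s, (Ico (j : ℝ) (j + 1)).indicator (gfun m) (u + r * s) * q s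

/-- the characteristic function of a measure with the kernel `exp(-2 π i σ s)` -/
noncomputable def chf (μ : Measure ℝ) (σ : ℝ) : ℂ :=
  ∫ s, Complex.exp (((-2 * Real.pi * σ * s : ℝ) : ℂ) * Complex.I) ∂μ

/-- the linear form `z ↦ z_0 + ∑ a_j z_{j+1}` -/
def lform {n : ℕ} (a : Fin n → ℝ) (z : Fin (n + 1) → ℝ) : ℝ := z 0 + ∑ j, a j * z j.succ

end Pool.Agent.Helper37.RQ
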