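import Pool.Agent.Helper37.RQ.OneDim
import Pool.Agent.Helper1.RQ.B1
import Pool.Agent.Helper1.RQ.B2
import Pool.Agent.Helper13.RQ.B3
import Pool.Agent.Helper47.RQ.C0

/-! Reconstruction of magnified copies in dimension at least three. -/

namespace Pool.Agent.Helper37.RQ

open MeasureTheory Set Filter Topology

theorem reconstruct {n : ℕ} (hn : 2 ≤ n) {E : Set (Fin (n + 1) → ℝ)} (hE : NullMeasurableSet E volume)
    (hb : Bornology.IsBounded E) (hpos : 0 < volume E) :
    Pool.Agent.Helper47.Recon.CanReconstruct (Pool.Agent.Helper47.Recon.magnifiedCopies E)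
      (n + 1 + 1) :=
  reconstruct_of (fun D => one_dim D) (fun h => exists_deriv h)
    (fun hμ _ hL hs _ hq hq2 hd => exists_dens hμ hL hs hq hq2 hd)
    (fun hn _ hE hb => ae_direction hn hE hb) hn hE hb hpos

theorem recon_three (d : ℕ) (hd : 3 ≤ d) (E : Set (Fin d → ℝ)) (hb : Bornology.IsBounded E)
    (hE : NullMeasurableSet E volume) (hpos : 0 < volume E) :
    Pool.Agent.Helper47.Recon.CanReconstruct (Pool.Agent.Helper47.Recon.magnifiedCopies E) (d + 1) := by
  obtain ⟨n, rfl⟩ : ∃ n, d = n + 1 := ⟨d - 1, by omega⟩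
  exact reconstruct (by omega) hE hb hpos

end Pool.Agent.Helper37.RQ
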