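import Pool.Agent.Helper37.RQ.A4
import Pool.Agent.Helper91.RQ.A2

/-! The one dimensional lemma. -/

namespace Pool.Agent.Helper37.RQ

open MeasureTheory Set Filter Topology

theorem exists_blocks {L : ℝ} {p q : ℝ → ℝ} (D : Dens L p q) :
    ∃ n : ℤ → ℕ, ∀ r : ℝ, 1 ≤ r → ∀ u : ℝ,
      |∫ s, ((SS n).indicator 1 (u + r * s) - HH (u + r * s)) * q s| < NN q r u :=
  exists_blocks_of D fun _ hε => small_blocks D.integrable_q hε

theorem one_dim {L : ℝ} {p q : ℝ → ℝ} (D : Dens L p q) :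
    ∃ S : Set ℝ, MeasurableSet S ∧ ∀ r : ℝ, 1 ≤ r →
      StrictMono (fun u : ℝ => ∫ s, S.indicator 1 (u + r * s) * p s) := by
  obtain ⟨n, hn⟩ := exists_blocks D
  exact ⟨SS n, measurableSet_SS n, fun r hr => one_dim_of D (measurableSet_SS n) hn hr⟩

end Pool.Agent.Helper37.RQ
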